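import Pool.Agent.H61.PF.Wron

namespace Pool.Agent.H61.PF

open Polynomial Finset

variable {F : Type*} [Field F]

lemma nab_iter_degree {I : Type*} (D : F[X]) (τ a : I → F[X]) (d h : ℕ) (hD : D.natDegree ≤ h)
    (hτ : ∀ i, (τ i).natDegree ≤ h) (ha : ∀ i, (a i).natDegree ≤ d) (s : ℕ) :
    ∀ i, (((nab D τ)^[s] a) i).natDegree ≤ d + s * h := by
  induction s with
  | zero => intro i; simpa using ha i
  | succ s ih =>
    intro i
    rw [Function.iterate_succ_apply', nab_apply]
    have h1 := ih i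
    refine (natDegree_add_le _ _).trans (max_le ?_ ?_)
    · refine natDegree_mul_le.trans ?_
      have h2 := natDegree_derivative_le (((nab D τ)^[s] a) i)
      have h3 : (s + 1) * h = s * h + h := by ring
      omega
    · refine natDegree_mul_le.trans ?_
      have h2 := hτ i
      have h3 : (s + 1) * h = s * h + h := by ring
      omega

lemma natDegree_Dt_le {I : Type*} [Fintype I] [DecidableEq I] (W : I → I → F[X]) (d : ℕ)
    (h : ∀ j i, (W j i).natDegree ≤ d) : (Dt W).natDegree ≤ Fintype.card I * d := by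
  rw [Dt_eq]
  refine natDegree_sum_le_of_forall_le _ _ fun σ _ => ?_
  refine natDegree_mul_le.trans ?_
  rw [natDegree_intCast, zero_add]
  refine (natDegree_prod_le _ _).trans ?_
  refine (Finset.sum_le_card_nsmul _ _ d fun j _ => h j (σ j)).trans ?_
  simp

lemma Dt_ne_zero {m : ℕ} (D : F[X]) (τ a : Fin m → F[X])
    (hτ : ∀ i j, i ≠ j → ∀ p q : F[X], p ≠ 0 → q ≠ 0 →
      D * (p * derivative q - derivative p * q) ≠ (τ i - τ j) * p * q)
    (ha : ∀ i, a i ≠ 0) : Dt (fun j : Fin m => (nab D τ)^[(j : ℕ)] a) ≠ 0 := by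
  classical
  intro h0
  unfold Dt at h0
  obtain ⟨c, hc, hc0⟩ := Matrix.exists_mulVec_eq_zero_iff.2 h0
  have hrel : ∑ j : Fin m, c j • (nab D τ)^[(j : ℕ)] a = 0 := by
    funext i
    have h1 := congrFun hc0 i
    simp only [Matrix.mulVec, dotProduct, Matrix.of_apply, Pi.zero_apply] at h1
    rw [Finset.sum_apply]
    simp only [Pi.smul_apply, smul_eq_mul, Pi.zero_apply]
    rw [← h1]
    exact Finset.sum_congr rfl fun j _ => mul_comm _ _
  have hex : (Finset.univ.filter fun j : Fin m => c j ≠ 0).Nonempty := by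
    obtain ⟨j, hj⟩ := Function.ne_iff.1 hc
    exact ⟨j, Finset.mem_filter.2 ⟨Finset.mem_univ _, hj⟩⟩
  obtain ⟨t, ht, htmax⟩ := Finset.exists_max_image _ (fun j : Fin m => (j : ℕ)) hex
  rw [Finset.mem_filter] at ht
  refine ht.2 ?_
  refine no_rel D τ hτ m Finset.univ (by simp) a (fun i _ => ha i)
    (fun i hi => absurd (Finset.mem_univ i) hi) (t : ℕ) t.2 (c t) ?_
  have h2 : c t • (nab D τ)^[(t : ℕ)] a
      = - ∑ j ∈ Finset.univ.erase t, c j • (nab D τ)^[(j : ℕ)] a := by
    rw [← Finset.add_sum_erase _ _ (Finset.mem_univ t)] at hrel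
    exact eq_neg_of_add_eq_zero_left hrel
  rw [h2]
  refine Submodule.neg_mem _ (Submodule.sum_mem _ fun j hj => ?_)
  by_cases hcj : c j = 0
  · rw [hcj, zero_smul]; exact Submodule.zero_mem _
  · have h3 := htmax j (Finset.mem_filter.2 ⟨Finset.mem_univ _, hcj⟩)
    have h4 : (j : ℕ) ≠ t := fun h => (Finset.ne_of_mem_erase hj) (Fin.ext h)
    exact Submodule.smul_mem _ _ (mem_U D τ a (lt_of_le_of_ne h3 h4))

/-- The number of points at which the first `s0` derived forms of a nonzero vector `a` kill a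
vector with nonzero entries. -/
theorem bad_count [CharZero F] {k : ℕ} (D : F[X]) (τ a : Fin k → F[X])
    (hτ : ∀ i j, i ≠ j → ∀ p q : F[X], p ≠ 0 → q ≠ 0 →
      D * (p * derivative q - derivative p * q) ≠ (τ i - τ j) * p * q)
    (ha : a ≠ 0) (d h s0 : ℕ) (hD : D.natDegree ≤ h) (hτd : ∀ i, (τ i).natDegree ≤ h)
    (had : ∀ i, (a i).natDegree ≤ d) (E : Finset F)
    (hE : ∀ y ∈ E, D.eval y ≠ 0 ∧ ∃ v : Fin k → F, (∀ i, v i ≠ 0) ∧
      ∀ s < s0, ∑ i, (((nab D τ)^[s] a) i).eval y * v i = 0)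
    (hs : k ≤ s0) : E.card * (s0 + 1 - k) ≤ k * (d + (k - 1) * h) := by
  classical
  set S : Finset (Fin k) := Finset.univ.filter fun i => a i ≠ 0 with hS
  have hSne : S.Nonempty := by
    obtain ⟨j, hj⟩ := Function.ne_iff.1 ha
    exact ⟨j, Finset.mem_filter.2 ⟨Finset.mem_univ _, hj⟩⟩
  set m := S.card with hm
  have hm1 : 0 < m := Finset.card_pos.2 hSne
  have hmk : m ≤ k := by
    have := Finset.card_le_univ S
    simpa using this
  set g : Fin m → Fin k := fun i => S.orderEmbOfFin rfl i with hg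
  have hginj : Function.Injective g := (S.orderEmbOfFin rfl).injective
  have hgS : ∀ i, g i ∈ S := fun i => S.orderEmbOfFin_mem rfl i
  have hgsurj : ∀ j ∈ S, ∃ i, g i = j := by
    intro j hj
    have := Finset.range_orderEmbOfFin S (rfl : S.card = m)
    have h2 : (j : Fin k) ∈ Set.range (S.orderEmbOfFin (rfl : S.card = m)) := by
      rw [this]; exact hj
    exact h2
  have hτ' : ∀ i j : Fin m, i ≠ j → ∀ p q : F[X], p ≠ 0 → q ≠ 0 →
      D * (p * derivative q - derivative p * q) ≠ ((τ ∘ g) i - (τ ∘ g) j) * p * q :=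
    fun i j hij => hτ _ _ fun h => hij (hginj h)
  have ha' : ∀ i, (a ∘ g) i ≠ 0 := fun i => (Finset.mem_filter.1 (hgS i)).2
  set Δ := Dt (fun j : Fin m => (nab D (τ ∘ g))^[(j : ℕ)] (a ∘ g)) with hΔ
  have hΔ0 : Δ ≠ 0 := Dt_ne_zero D (τ ∘ g) (a ∘ g) hτ' ha'
  have hdeg : Δ.natDegree ≤ k * (d + (k - 1) * h) := by
    have h1 := natDegree_Dt_le (fun j : Fin m => (nab D (τ ∘ g))^[(j : ℕ)] (a ∘ g)) (d + (k - 1) * h)
      (fun j i => by
        refine (nab_iter_degree D (τ ∘ g) (a ∘ g) d h hD (fun i => hτd _) (fun i => had _) j i).trans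
          ?_
        have h2 : (j : ℕ) ≤ k - 1 := by have := j.2; omega
        have := Nat.mul_le_mul_right h h2
        omega)
    refine h1.trans ?_
    rw [Fintype.card_fin]
    exact Nat.mul_le_mul_right _ hmk
  have hdvd : ∀ y ∈ E, (X - C y) ^ (s0 + 1 - k) ∣ Δ := by
    intro y hy
    obtain ⟨hDy, v, hv, hvan⟩ := hE y hy
    have h1 : (X - C y) ^ ((s0 - m) + 1) ∣ Δ := by
      refine Dt_dvd D (τ ∘ g) (a ∘ g) y hDy (v ∘ g) ?_ s0 ?_ (s0 - m) (fun j : Fin m => (j : ℕ)) ?_
      · intro h0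
        have := congrFun h0 ⟨0, hm1⟩
        exact hv _ this
      · intro s hs'
        have h2 := hvan s hs'
        rw [← nab_iter_comp]
        rw [← h2]
        have h3 : ∑ i, (((nab D τ)^[s] a) i).eval y * v i
            = ∑ i ∈ S, (((nab D τ)^[s] a) i).eval y * v i := by
          symm
          refine Finset.sum_subset (Finset.subset_univ _) fun i _ hi => ?_
          have h4 : a i = 0 := by
            by_contra h5
            exact hi (Finset.mem_filter.2 ⟨Finset.mem_univ _, h5⟩)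
          rw [nab_iter_zero_coord D τ a i h4 s, eval_zero, zero_mul]
        rw [h3]
        refine Finset.sum_bij (fun i _ => g i) (fun i _ => hgS i) (fun i _ j _ h => hginj h)
          (fun j hj => ?_) (fun i _ => rfl)
        obtain ⟨i, hi⟩ := hgsurj j hj
        exact ⟨i, Finset.mem_univ _, hi⟩
      · intro j
        have := j.2
        omega
    exact (pow_dvd_pow _ (by omega)).trans h1
  have hprod : (∏ y ∈ E, (X - C y) ^ (s0 + 1 - k)) ∣ Δ := by
    refine Finset.prod_dvd_of_coprime ?_ hdvd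
    intro y _ z _ hyz
    exact (pairwise_coprime_X_sub_C Function.injective_id hyz).pow
  have h2 := natDegree_le_of_dvd hprod hΔ0
  rw [natDegree_prod_of_monic _ _ (fun y _ => (monic_X_sub_C y).pow _)] at h2
  simp only [natDegree_pow, natDegree_X_sub_C, mul_one, Finset.sum_const, smul_eq_mul] at h2
  exact h2.trans hdeg

end Pool.Agent.H61.PF
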