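import Mathlib

/-!
# The determinant of the derived forms

`nab D τ w = D w' + τ w` on vectors of polynomials.  The determinant of `a, ∇a, …, ∇^{m-1} a`
vanishes to high order at a point at which many derived forms kill one vector, and it is not
zero when the entries of `a` are not zero and the `τ i` are pairwise inequivalent.
-/

namespace Pool.Agent.H61.PF

open Polynomial Finset

section Defs

variable {R : Type*} [CommRing R] {I : Type*}

/-- The operator `w ↦ D w' + τ w` on vectors of polynomials. -/
noncomputable def nab (D : R[X]) (τ : I → R[X]) (w : I → R[X]) : I → R[X] :=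
  fun i => D * derivative (w i) + τ i * w i

lemma nab_apply (D : R[X]) (τ : I → R[X]) (w : I → R[X]) (i : I) :
    nab D τ w i = D * derivative (w i) + τ i * w i := rfl

lemma nab_add (D : R[X]) (τ : I → R[X]) (v w : I → R[X]) :
    nab D τ (v + w) = nab D τ v + nab D τ w := by
  funext i
  simp only [nab, Pi.add_apply, derivative_add]
  ring

lemma nab_zero (D : R[X]) (τ : I → R[X]) : nab D τ 0 = 0 := by
  funext i
  simp [nab]

lemma nab_smul (D : R[X]) (τ : I → R[X]) (f : R[X]) (w : I → R[X]) :
    nab D τ (f • w) = f • nab D τ w + (D * derivative f) • w := by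
  funext i
  simp only [nab, Pi.smul_apply, Pi.add_apply, smul_eq_mul, derivative_mul]
  ring

lemma nab_comp {J : Type*} (D : R[X]) (τ : I → R[X]) (w : I → R[X]) (g : J → I) :
    (nab D τ w) ∘ g = nab D (τ ∘ g) (w ∘ g) := rfl

lemma nab_iter_comp {J : Type*} (D : R[X]) (τ : I → R[X]) (w : I → R[X]) (g : J → I) (s : ℕ) :
    ((nab D τ)^[s] w) ∘ g = (nab D (τ ∘ g))^[s] (w ∘ g) := by
  induction s with
  | zero => rfl
  | succ s ih =>
    rw [Function.iterate_succ_apply', Function.iterate_succ_apply', nab_comp, ih]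

lemma nab_iter_zero_coord (D : R[X]) (τ : I → R[X]) (w : I → R[X]) (i : I) (h : w i = 0) (s : ℕ) :
    ((nab D τ)^[s] w) i = 0 := by
  induction s with
  | zero => exact h
  | succ s ih => rw [Function.iterate_succ_apply', nab_apply, ih]; simp

end Defs

section Det

variable {R : Type*} [CommRing R] {I : Type*} [Fintype I] [DecidableEq I]

/-- The determinant of a family of vectors of polynomials. -/
noncomputable def Dt (W : I → I → R[X]) : R[X] := (Matrix.of fun i j => W j i).det

lemma Dt_eq (W : I → I → R[X]) :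
    Dt W = ∑ σ : Equiv.Perm I, ((Equiv.Perm.sign σ : ℤ) : R[X]) * ∏ j, W j (σ j) := by
  unfold Dt
  rw [Matrix.det_apply']
  rfl

lemma Dt_nab (D : R[X]) (τ : I → R[X]) (W : I → I → R[X]) :
    D * derivative (Dt W) + (∑ i, τ i) * Dt W
      = ∑ j, Dt (Function.update W j (nab D τ (W j))) := by
  simp only [Dt_eq]
  rw [Finset.sum_comm, derivative_sum, Finset.mul_sum, Finset.mul_sum, ← Finset.sum_add_distrib]
  refine Finset.sum_congr rfl fun σ _ => ?_
  rw [derivative_mul, derivative_intCast, zero_mul, zero_add, ← Finset.mul_sum]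
  have h1 : (∑ i, τ i) = ∑ j, τ (σ j) := (Equiv.sum_comp σ τ).symm
  have h2 : ∀ j : I, (∏ l, (Function.update W j (nab D τ (W j))) l (σ l))
      = (∏ l ∈ Finset.univ.erase j, W l (σ l)) * (D * derivative (W j (σ j)) + τ (σ j) * W j (σ j)) := by
    intro j
    rw [← Finset.prod_erase_mul Finset.univ _ (Finset.mem_univ j)]
    congr 1
    · refine Finset.prod_congr rfl fun l hl => ?_
      rw [Function.update_of_ne (Finset.ne_of_mem_erase hl)]
    · rw [Function.update_self]; rfl
  simp only [h2]
  rw [h1, derivative_prod_finset]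
  have h3 : ∀ j : I, (∏ l, W l (σ l)) = (∏ l ∈ Finset.univ.erase j, W l (σ l)) * W j (σ j) := by
    intro j
    rw [Finset.prod_erase_mul Finset.univ _ (Finset.mem_univ j)]
  rw [Finset.mul_sum, Finset.sum_mul, Finset.mul_sum, Finset.mul_sum, ← Finset.sum_add_distrib]
  refine Finset.sum_congr rfl fun j _ => ?_
  rw [h3 j]
  ring

end Det

section Mult

variable {F : Type*} [Field F] [CharZero F] {I : Type*} [Fintype I] [DecidableEq I]

omit [CharZero F] in
lemma Dt_dvd_zero (W : I → I → F[X]) (y : F) (v : I → F) (hv : v ≠ 0)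
    (h : ∀ j, ∑ i, (W j i).eval y * v i = 0) : (X - C y) ∣ Dt W := by
  rw [dvd_iff_isRoot, IsRoot.def]
  have h1 : (Dt W).eval y = (Matrix.of fun i j => (W j i).eval y).det := by
    unfold Dt
    have := (evalRingHom y).map_det (Matrix.of fun i j => W j i)
    rw [coe_evalRingHom] at this
    rw [this]
    congr 1
  rw [h1]
  refine Matrix.exists_vecMul_eq_zero_iff.1 ⟨v, hv, ?_⟩
  funext j
  have := h j
  simp only [Matrix.vecMul, dotProduct, Matrix.of_apply, Pi.zero_apply]
  rw [← this]
  exact Finset.sum_congr rfl fun i _ => mul_comm _ _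

lemma dvd_step (f D g : F[X]) (y : F) (r : ℕ) (hD : D.eval y ≠ 0)
    (h0 : (X - C y) ^ (r + 1) ∣ f) (h1 : (X - C y) ^ (r + 1) ∣ D * derivative f + g * f) :
    (X - C y) ^ (r + 2) ∣ f := by
  have h2 : (X - C y) ^ (r + 1) ∣ D * derivative f := by
    have := dvd_sub h1 (dvd_mul_of_dvd_right h0 g)
    simpa using this
  have hcop : IsCoprime ((X - C y) ^ (r + 1)) D := by
    apply IsCoprime.pow_left
    rw [Irreducible.coprime_iff_not_dvd (irreducible_X_sub_C y)]
    rw [dvd_iff_isRoot]
    exact hD
  have h3 : (X - C y) ^ (r + 1) ∣ derivative f := hcop.dvd_of_dvd_mul_left h2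
  obtain ⟨q, rfl⟩ := h0
  rw [derivative_mul, derivative_X_sub_C_pow] at h3
  have h4 : (X - C y) ^ (r + 1) ∣ C ((r + 1 : ℕ) : F) * (X - C y) ^ r * q := by
    have h5 := dvd_sub h3 (dvd_mul_right ((X - C y) ^ (r + 1)) (derivative q))
    simpa using h5
  have hne : ((X - C y) ^ r : F[X]) ≠ 0 := pow_ne_zero _ (X_sub_C_ne_zero y)
  have h6 : (X - C y) ∣ C ((r + 1 : ℕ) : F) * q := by
    have : (X - C y) ^ r * (X - C y) ∣ (X - C y) ^ r * (C ((r + 1 : ℕ) : F) * q) := by
      rw [← pow_succ]
      convert h4 using 1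
      ring
    exact (mul_dvd_mul_iff_left hne).1 this
  have h7 : (X - C y) ∣ q := by
    have hu : IsUnit (C ((r + 1 : ℕ) : F)) := by
      rw [isUnit_C]
      exact (Nat.cast_ne_zero.2 (Nat.succ_ne_zero r)).isUnit
    rwa [hu.dvd_mul_left] at h6
  obtain ⟨q', rfl⟩ := h7
  exact ⟨q', by ring⟩

/-- If `∇^s a` at `y` kills a nonzero vector `v` for all `s < s0`, then every determinant of
derived vectors of orders `< s0 - r` is divisible by `(X - y)^{r+1}`. -/
theorem Dt_dvd (D : F[X]) (τ a : I → F[X]) (y : F) (hD : D.eval y ≠ 0) (v : I → F) (hv : v ≠ 0)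
    (s0 : ℕ) (h : ∀ s < s0, ∑ i, (((nab D τ)^[s] a) i).eval y * v i = 0) (r : ℕ) :
    ∀ s : I → ℕ, (∀ j, s j + r < s0) → (X - C y) ^ (r + 1) ∣ Dt fun j => (nab D τ)^[s j] a := by
  induction r with
  | zero =>
    intro s hs
    rw [zero_add, pow_one]
    exact Dt_dvd_zero _ y v hv fun j => h (s j) (by simpa using hs j)
  | succ r ih =>
    intro s hs
    refine dvd_step _ D (∑ i, τ i) y r hD (ih s fun j => by have := hs j; omega) ?_
    rw [Dt_nab]
    refine Finset.dvd_sum fun j _ => ?_
    have h1 : (Function.update (fun j => (nab D τ)^[s j] a) j (nab D τ ((nab D τ)^[s j] a)))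
        = fun l => (nab D τ)^[(Function.update s j (s j + 1)) l] a := by
      funext l
      by_cases hl : l = j
      · subst hl
        rw [Function.update_self, Function.update_self, Function.iterate_succ_apply']
      · rw [Function.update_of_ne hl, Function.update_of_ne hl]
    rw [h1]
    refine ih _ fun l => ?_
    by_cases hl : l = j
    · subst hl
      rw [Function.update_self]
      have := hs l
      omega
    · rw [Function.update_of_ne hl]
      have := hs l
      omega

end Mult

section Indep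

variable {F : Type*} [Field F] {I : Type*}

/-- The span of the first `t` derived vectors. -/
noncomputable def U (D : F[X]) (τ a : I → F[X]) (t : ℕ) : Submodule F[X] (I → F[X]) :=
  Submodule.span F[X] ((fun s => (nab D τ)^[s] a) '' Set.Iio t)

lemma U_mono (D : F[X]) (τ a : I → F[X]) {s t : ℕ} (h : s ≤ t) : U D τ a s ≤ U D τ a t :=
  Submodule.span_mono (Set.image_mono (Set.Iio_subset_Iio h))

lemma mem_U (D : F[X]) (τ a : I → F[X]) {s t : ℕ} (h : s < t) : (nab D τ)^[s] a ∈ U D τ a t :=
  Submodule.subset_span ⟨s, h, rfl⟩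

lemma nab_mem_U (D : F[X]) (τ a : I → F[X]) (t : ℕ) (w : I → F[X]) (hw : w ∈ U D τ a t) :
    nab D τ w ∈ U D τ a (t + 1) := by
  induction hw using Submodule.span_induction with
  | mem x hx =>
    obtain ⟨s, hs, rfl⟩ := hx
    simp only
    rw [← Function.iterate_succ_apply' (nab D τ)]
    exact mem_U D τ a (Nat.succ_lt_succ hs)
  | zero => rw [nab_zero]; exact Submodule.zero_mem _
  | add x y _ _ hx hy => rw [nab_add]; exact Submodule.add_mem _ hx hy
  | smul f x hx' hx =>
    rw [nab_smul]
    exact Submodule.add_mem _ (Submodule.smul_mem _ _ hx)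
      (Submodule.smul_mem _ _ (U_mono D τ a (Nat.le_succ t) hx'))

lemma U_coord (D : F[X]) (τ a : I → F[X]) (i : I) (hi : a i = 0) (t : ℕ) (w : I → F[X])
    (hw : w ∈ U D τ a t) : w i = 0 := by
  induction hw using Submodule.span_induction with
  | mem x hx =>
    obtain ⟨s, hs, rfl⟩ := hx
    exact nab_iter_zero_coord D τ a i hi s
  | zero => rfl
  | add x y _ _ hx hy => rw [Pi.add_apply, hx, hy, add_zero]
  | smul f x _ hx => rw [Pi.smul_apply, hx, smul_zero]

/-- The reduced vector. -/
noncomputable def red (D : F[X]) (τ a : I → F[X]) (i0 : I) : I → F[X] :=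
  a i0 • nab D τ a - (nab D τ a i0) • a

lemma red_self (D : F[X]) (τ a : I → F[X]) (i0 : I) : red D τ a i0 i0 = 0 := by
  simp only [red, Pi.sub_apply, Pi.smul_apply, smul_eq_mul]
  ring

/-- The span of `a` and of the first `s` derived vectors of the reduced vector. -/
noncomputable def N (D : F[X]) (τ a : I → F[X]) (i0 : I) (s : ℕ) : Submodule F[X] (I → F[X]) :=
  Submodule.span F[X] {a} ⊔ U D τ (red D τ a i0) s

lemma N_mono (D : F[X]) (τ a : I → F[X]) (i0 : I) {s t : ℕ} (h : s ≤ t) :
    N D τ a i0 s ≤ N D τ a i0 t := sup_le_sup le_rfl (U_mono _ _ _ h)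

lemma a_mem_N (D : F[X]) (τ a : I → F[X]) (i0 : I) (s : ℕ) : a ∈ N D τ a i0 s :=
  Submodule.mem_sup_left (Submodule.mem_span_singleton_self a)

lemma nab_mem_N (D : F[X]) (τ a : I → F[X]) (i0 : I) (s : ℕ) (w : I → F[X])
    (hw : w ∈ N D τ a i0 s) : a i0 • nab D τ w ∈ N D τ a i0 (s + 1) := by
  obtain ⟨x, hx, u, hu, rfl⟩ := Submodule.mem_sup.1 hw
  obtain ⟨f, rfl⟩ := Submodule.mem_span_singleton.1 hx
  rw [nab_add, smul_add]
  refine Submodule.add_mem _ ?_ (Submodule.smul_mem _ _
    (Submodule.mem_sup_right (nab_mem_U D τ _ s u hu)))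
  rw [nab_smul, smul_add]
  refine Submodule.add_mem _ ?_ (Submodule.smul_mem _ _ (Submodule.smul_mem _ _
    (a_mem_N D τ a i0 _)))
  rw [smul_comm]
  refine Submodule.smul_mem _ _ ?_
  have h1 : a i0 • nab D τ a = red D τ a i0 + (nab D τ a i0) • a := by
    simp [red]
  rw [h1]
  exact Submodule.add_mem _ (Submodule.mem_sup_right (mem_U D τ _ (Nat.succ_pos s)))
    (Submodule.smul_mem _ _ (a_mem_N D τ a i0 _))

lemma pseudo (D : F[X]) (τ a : I → F[X]) (i0 : I) (s : ℕ) :
    a i0 ^ (s + 1) • (nab D τ)^[s + 1] a - a i0 ^ s • (nab D τ)^[s] (red D τ a i0)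
      ∈ N D τ a i0 s := by
  induction s with
  | zero =>
    have h1 : a i0 ^ (0 + 1) • (nab D τ)^[0 + 1] a - a i0 ^ 0 • (nab D τ)^[0] (red D τ a i0)
        = (nab D τ a i0) • a := by
      simp [red]
    rw [h1]
    exact Submodule.smul_mem _ _ (a_mem_N D τ a i0 _)
  | succ s ih =>
    have h1 := nab_mem_N D τ a i0 s _ ih
    -- the two identities
    have h2 : a i0 • nab D τ (a i0 ^ (s + 1) • (nab D τ)^[s + 1] a
          - a i0 ^ s • (nab D τ)^[s] (red D τ a i0))
        = (a i0 ^ (s + 2) • (nab D τ)^[s + 2] a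
            - a i0 ^ (s + 1) • (nab D τ)^[s + 1] (red D τ a i0))
          + ((((s + 1 : ℕ) : F[X]) * D * derivative (a i0)) • (a i0 ^ (s + 1) • (nab D τ)^[s + 1] a)
            - (a i0 * (D * derivative (a i0 ^ s))) • (nab D τ)^[s] (red D τ a i0)) := by
      rw [sub_eq_add_neg, nab_add, ← neg_one_smul F[X], nab_smul, nab_smul, nab_smul,
        ← Function.iterate_succ_apply' (nab D τ), ← Function.iterate_succ_apply' (nab D τ)]
      funext i
      simp only [Pi.add_apply, Pi.sub_apply, Pi.smul_apply, smul_eq_mul, derivative_neg,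
        derivative_one, derivative_pow_succ]
      push_cast
      simp only [map_add, map_natCast, map_one]
      ring
    have h3 : a i0 ^ (s + 1) • (nab D τ)^[s + 1] a ∈ N D τ a i0 (s + 1) := by
      have h4 := Submodule.add_mem _ (N_mono D τ a i0 (Nat.le_succ s) ih)
        (Submodule.smul_mem (N D τ a i0 (s + 1)) (a i0 ^ s)
          (Submodule.mem_sup_right (mem_U D τ (red D τ a i0) (Nat.lt_succ_self s))))
      simpa using h4
    have h5 := Submodule.sub_mem _ (h2 ▸ h1) (Submodule.sub_mem _
      (Submodule.smul_mem _ (((s + 1 : ℕ) : F[X]) * D * derivative (a i0)) h3)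
      (Submodule.smul_mem (N D τ a i0 (s + 1)) (a i0 * (D * derivative (a i0 ^ s)))
          (Submodule.mem_sup_right (mem_U D τ (red D τ a i0) (Nat.lt_succ_self s)))))
    rw [add_sub_cancel_right] at h5
    exact h5

/-- No nontrivial relation between the first `card S` derived vectors of a vector with
support `S`. -/
theorem no_rel [DecidableEq I] (D : F[X]) (τ : I → F[X])
    (hτ : ∀ i j, i ≠ j → ∀ p q : F[X], p ≠ 0 → q ≠ 0 →
      D * (p * derivative q - derivative p * q) ≠ (τ i - τ j) * p * q) :
    ∀ (n : ℕ) (S : Finset I), S.card = n → ∀ a : I → F[X], (∀ i ∈ S, a i ≠ 0) →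
      (∀ i ∉ S, a i = 0) → ∀ t < n, ∀ f : F[X], f • (nab D τ)^[t] a ∈ U D τ a t → f = 0 := by
  intro n
  induction n with
  | zero => intro S _ a _ _ t ht; exact absurd ht (Nat.not_lt_zero _)
  | succ n ih =>
    intro S hS a ha ha0 t ht f hf
    have hSne : S.Nonempty := by
      rw [← Finset.card_pos, hS]; exact Nat.succ_pos _
    obtain ⟨i0, hi0⟩ := hSne
    have hai0 := ha i0 hi0
    rcases t with _ | t
    · -- `f • a = 0`
      have h1 : U D τ a 0 = ⊥ := by
        unfold U
        simp
      rw [h1, Submodule.mem_bot] at hf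
      have h2 := congrFun hf i0
      simp only [Function.iterate_zero, id_eq, Pi.smul_apply, smul_eq_mul, Pi.zero_apply,
        mul_eq_zero] at h2
      exact h2.resolve_right hai0
    · -- reduce
      have hb : ∀ i ∈ S.erase i0, red D τ a i0 i ≠ 0 := by
        intro i hi
        have hine := Finset.ne_of_mem_erase hi
        have hai := ha i (Finset.mem_of_mem_erase hi)
        have h1 := hτ i0 i (Ne.symm hine) (a i0) (a i) hai0 hai
        intro h2
        apply h1
        simp only [red, Pi.sub_apply, Pi.smul_apply, smul_eq_mul, nab_apply] at h2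
        linear_combination h2
      have hb0 : ∀ i ∉ S.erase i0, red D τ a i0 i = 0 := by
        intro i hi
        by_cases hii : i = i0
        · subst hii; exact red_self D τ a i
        · have : a i = 0 := ha0 i fun h => hi (Finset.mem_erase.2 ⟨hii, h⟩)
          simp only [red, Pi.sub_apply, Pi.smul_apply, smul_eq_mul, nab_apply, this]
          simp
      have hcard : (S.erase i0).card = n := by
        rw [Finset.card_erase_of_mem hi0, hS]; rfl
      have hlow : ∀ s ≤ t, a i0 ^ t • (nab D τ)^[s] a ∈ N D τ a i0 t := by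
        intro s hs
        rcases s with _ | s
        · exact Submodule.smul_mem _ _ (a_mem_N D τ a i0 _)
        · have h4 := Submodule.add_mem _ (N_mono D τ a i0 (Nat.le_of_succ_le hs) (pseudo D τ a i0 s))
            (Submodule.smul_mem (N D τ a i0 t) (a i0 ^ s)
              (Submodule.mem_sup_right (mem_U D τ (red D τ a i0) hs)))
          rw [sub_add_cancel] at h4
          have h5 := Submodule.smul_mem _ (a i0 ^ (t - (s + 1))) h4
          rw [smul_smul, ← pow_add, Nat.sub_add_cancel hs] at h5
          exact h5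
      have hU : ∀ w ∈ U D τ a (t + 1), a i0 ^ t • w ∈ N D τ a i0 t := by
        intro w hw
        induction hw using Submodule.span_induction with
        | mem x hx =>
          obtain ⟨s, hs, rfl⟩ := hx
          exact hlow s (Nat.lt_succ_iff.1 hs)
        | zero => rw [smul_zero]; exact Submodule.zero_mem _
        | add x y _ _ hx hy => rw [smul_add]; exact Submodule.add_mem _ hx hy
        | smul g x _ hx => rw [smul_comm]; exact Submodule.smul_mem _ _ hx
      have h6 : a i0 ^ (t + 1) • (f • (nab D τ)^[t + 1] a) ∈ N D τ a i0 t := by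
        rw [pow_succ', mul_smul]
        exact Submodule.smul_mem _ _ (hU _ hf)
      have h7 : (a i0 ^ t * f) • (nab D τ)^[t] (red D τ a i0) ∈ N D τ a i0 t := by
        have h8 := Submodule.smul_mem _ f (pseudo D τ a i0 t)
        have h9 := Submodule.sub_mem _ h6 h8
        convert h9 using 1
        rw [smul_sub, smul_comm f (a i0 ^ (t + 1)), sub_sub_cancel, smul_smul, mul_comm]
      obtain ⟨x, hx, u, hu, hxu⟩ := Submodule.mem_sup.1 h7
      obtain ⟨g, rfl⟩ := Submodule.mem_span_singleton.1 hx
      have hg : g = 0 := by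
        have h10 := congrFun hxu i0
        rw [Pi.add_apply, Pi.smul_apply, Pi.smul_apply,
          nab_iter_zero_coord D τ _ i0 (red_self D τ a i0) t,
          U_coord D τ _ i0 (red_self D τ a i0) t u hu, smul_zero, add_zero, smul_eq_mul,
          mul_eq_zero] at h10
        exact h10.resolve_right hai0
      rw [hg, zero_smul, zero_add] at hxu
      rw [hxu] at hu
      have h11 := ih (S.erase i0) hcard (red D τ a i0) hb hb0 t (Nat.lt_of_succ_lt_succ ht) _ hu
      rw [mul_eq_zero] at h11
      exact h11.resolve_left (pow_ne_zero _ hai0)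

end Indep

end Pool.Agent.H61.PF
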